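import Pool.Agent.Lib.MP_6216ea_lc.SP.Comp

/-! Arithmetic, properties, bounded search. -/

set_option autoImplicit false

namespace Pool.Agent.MP_6216ea_lc

namespace SP

open Function

variable {α : Type} {K : List α → ℕ} {σ τ ρ : Type} [Tup σ] [Tup τ] [Tup ρ]

/-- Functions bounded by a power of the scale. -/
def Bd (K : List α → ℕ) (F : List α → σ → ℕ) : Prop :=
  ∃ e : ℕ, ∀ (x : List α) (B : ℕ) (w : σ), 2 ≤ B → K x < B → Lt w B → F x w < B ^ e

protected theorem Comp.bd {F : List α → σ → ℕ} (h : Comp K F) : Bd K F := by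
  obtain ⟨e, he⟩ := h.bound
  exact ⟨e, fun x B w hB hx hw => lt_nat.1 (he x B w hB hx hw)⟩

protected theorem Bd.mono {F G : List α → σ → ℕ} (h : Bd K F) (hG : ∀ x w, G x w ≤ F x w) : Bd K G := by
  obtain ⟨e, he⟩ := h
  exact ⟨e, fun x B w hB hx hw => (hG x w).trans_lt (he x B w hB hx hw)⟩

protected theorem Bd.const (m : ℕ) : Bd K fun _ (_ : σ) => m := (Comp.const m).bd

/-- Everything bounded by `K`. -/
protected theorem Bd.scale : Bd K fun x (_ : σ) => K x := ⟨1, fun x B w _ hx _ => by rwa [pow_one]⟩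

protected theorem Bd.add {F G : List α → σ → ℕ} (hF : Bd K F) (hG : Bd K G) :
    Bd K fun x w => F x w + G x w := by
  obtain ⟨e₁, h₁⟩ := hF
  obtain ⟨e₂, h₂⟩ := hG
  refine ⟨e₁ + e₂ + 1, fun x B w hB hx hw => ?_⟩
  have a₁ := (h₁ x B w hB hx hw).trans_le
    (Nat.pow_le_pow_right (n := B) (by omega) (show e₁ ≤ e₁ + e₂ by omega))
  have a₂ := (h₂ x B w hB hx hw).trans_le
    (Nat.pow_le_pow_right (n := B) (by omega) (show e₂ ≤ e₁ + e₂ by omega))
  rw [pow_succ]
  change F x w + G x w < _
  nlinarith

protected theorem Bd.mul {F G : List α → σ → ℕ} (hF : Bd K F) (hG : Bd K G) :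
    Bd K fun x w => F x w * G x w := by
  obtain ⟨e₁, h₁⟩ := hF
  obtain ⟨e₂, h₂⟩ := hG
  refine ⟨e₁ + e₂, fun x B w hB hx hw => ?_⟩
  rw [pow_add]
  exact Nat.mul_lt_mul'' (h₁ x B w hB hx hw) (h₂ x B w hB hx hw)

protected theorem Bd.comp {F : List α → τ → ℕ} {g : List α → σ → τ} (hF : Bd K F) (hg : Comp K g) :
    Bd K fun x w => F x (g x w) := by
  obtain ⟨e₁, h₁⟩ := hF
  obtain ⟨e₂, h₂⟩ := hg.bound
  refine ⟨(e₂ + 1) * e₁, fun x B w hB hx hw => ?_⟩
  have hBB : B ≤ B ^ (e₂ + 1) := Nat.le_self_pow (by omega) B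
  rw [pow_mul]
  exact h₁ x (B ^ (e₂ + 1)) (g x w) (by omega) (by omega)
    ((h₂ x B w hB hx hw).mono (Nat.pow_le_pow_right (by omega) (by omega)))

/-- The maximum of boundedly many values. -/
protected theorem Bd.sup {F : List α → σ → ℕ → ℕ} {T : List α → σ → ℕ}
    (hF : Bd K fun x (p : σ × ℕ) => F x p.1 p.2) (hT : Bd K T) :
    Bd K fun x w => (Finset.range (T x w + 1)).sup (F x w) := by
  obtain ⟨e₁, h₁⟩ := hF
  obtain ⟨e₂, h₂⟩ := hT
  refine ⟨(e₂ + 1) * e₁, fun x B w hB hx hw => ?_⟩
  have hBB : B ≤ B ^ (e₂ + 1) := Nat.le_self_pow (by omega) B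
  have hlt : B ^ e₂ ≤ B ^ (e₂ + 1) := Nat.pow_le_pow_right (by omega) (by omega)
  rw [pow_mul]
  refine (Finset.sup_lt_iff (pow_pos (pow_pos (by omega) _) _)).2 fun i hi => ?_
  have hi' := Finset.mem_range.1 hi
  have := h₂ x B w hB hx hw
  exact h₁ x (B ^ (e₂ + 1)) (w, i) (by omega) (by omega)
    (lt_prod.2 ⟨hw.mono hBB, lt_nat.2 (by omega)⟩)

theorem le_sup_range {F : ℕ → ℕ} {T i : ℕ} (h : i ≤ T) :
    F i ≤ (Finset.range (T + 1)).sup F :=
  Finset.le_sup (f := F) (Finset.mem_range.2 (by omega))

/-- Bounded recursion with a given bound. -/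
protected theorem Comp.itr_le {h : List α → σ → ℕ → τ → τ} {g : List α → σ → τ} {T F : List α → σ → ℕ}
    (hh : Comp K fun x (p : σ × ℕ × τ) => h x p.1 p.2.1 p.2.2) (hg : Comp K g) (hT : Comp K T)
    (hF : Bd K F) (hb : ∀ x w, ∀ i ≤ T x w, Lt (itr (h x w) (g x w) i) (F x w + 1)) :
    Comp K fun x w => itr (h x w) (g x w) (T x w) := by
  obtain ⟨e, he⟩ := hF
  exact Comp.itr hh hg hT ⟨e, fun x B w hB hx hw i hi => (hb x w i hi).mono (he x B w hB hx hw)⟩

protected theorem Comp.itr_nat {h : List α → σ → ℕ → ℕ → ℕ} {g : List α → σ → ℕ} {T F : List α → σ → ℕ}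
    (hh : Comp K fun x (p : σ × ℕ × ℕ) => h x p.1 p.2.1 p.2.2) (hg : Comp K g) (hT : Comp K T)
    (hF : Bd K F) (hb : ∀ x w, ∀ i ≤ T x w, itr (h x w) (g x w) i ≤ F x w) :
    Comp K fun x w => itr (h x w) (g x w) (T x w) :=
  Comp.itr_le hh hg hT hF fun x w i hi => lt_nat.2 (Nat.lt_succ_of_le (hb x w i hi))

omit [Tup τ] in
/-- Invariants of the iteration. -/
theorem itr_inv {P : ℕ → τ → Prop} {f : ℕ → τ → τ} {s : τ} {t : ℕ} (h0 : P 0 s)
    (hs : ∀ i < t, ∀ v, P i v → P (i + 1) (f i v)) : ∀ i ≤ t, P i (itr f s i) := by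
  intro i
  induction i with
  | zero => intro _; exact h0
  | succ i ih => intro hi; exact hs i (by omega) _ (ih (by omega))

/-! ### Arithmetic -/

theorem itr_add (a i : ℕ) : itr (fun _ p => p + 1) a i = a + i := by
  induction i with
  | zero => rfl
  | succ i ih => rw [itr, ih, add_assoc]

protected theorem Comp.add {f g : List α → σ → ℕ} (hf : Comp K f) (hg : Comp K g) :
    Comp K fun x w => f x w + g x w := by
  refine (Comp.itr_nat (h := fun _ _ _ p => p + 1) (Comp.succ Comp.id.snd.snd) hf hg
    (hf.bd.add hg.bd) fun x w i hi => ?_).of_eq fun x w => itr_add _ _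
  rw [itr_add]
  omega

theorem itr_sub (a i : ℕ) : itr (fun _ p => p - 1) a i = a - i := by
  induction i with
  | zero => rfl
  | succ i ih => rw [itr, ih]; omega

protected theorem Comp.sub {f g : List α → σ → ℕ} (hf : Comp K f) (hg : Comp K g) :
    Comp K fun x w => f x w - g x w := by
  refine (Comp.itr_nat (h := fun _ _ _ p => p - 1) (Comp.pred Comp.id.snd.snd) hf hg
    hf.bd fun x w i hi => ?_).of_eq fun x w => itr_sub _ _
  rw [itr_sub]
  omega

theorem itr_mul (a i : ℕ) : itr (fun _ p => p + a) 0 i = a * i := by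
  induction i with
  | zero => rfl
  | succ i ih => rw [itr, ih]; ring

protected theorem Comp.mul {f g : List α → σ → ℕ} (hf : Comp K f) (hg : Comp K g) :
    Comp K fun x w => f x w * g x w := by
  refine (Comp.itr_nat (h := fun x w _ p => p + f x w)
    (Comp.add Comp.id.snd.snd (hf.comp Comp.id.fst)) (Comp.const 0) hg
    (hf.bd.mul hg.bd) fun x w i hi => ?_).of_eq fun x w => itr_mul _ _
  rw [itr_mul]
  exact Nat.mul_le_mul_left _ hi

/-! ### Properties -/

protected theorem CompP.of {c : List α → σ → ℕ} (hc : Comp K c) : CompP K fun x w => c x w ≠ 0 :=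
  ⟨c, hc, fun _ _ => Iff.rfl⟩

protected theorem CompP.congr {P Q : List α → σ → Prop} (hP : CompP K P) (h : ∀ x w, P x w ↔ Q x w) :
    CompP K Q := by
  obtain ⟨c, hc, h'⟩ := hP
  exact ⟨c, hc, fun x w => (h' x w).trans (h x w)⟩

protected theorem CompP.comp {P : List α → τ → Prop} {f : List α → σ → τ} (hP : CompP K P)
    (hf : Comp K f) : CompP K fun x w => P x (f x w) := by
  obtain ⟨c, hc, h⟩ := hP
  exact ⟨_, hc.comp hf, fun x w => h x (f x w)⟩

protected theorem CompP.const (p : Prop) : CompP K fun _ (_ : σ) => p := by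
  by_cases h : p
  · exact (CompP.of (Comp.const 1)).congr fun _ _ => by simp [h]
  · exact (CompP.of (Comp.const 0)).congr fun _ _ => by simp [h]

protected theorem CompP.not {P : List α → σ → Prop} (hP : CompP K P) : CompP K fun x w => ¬ P x w := by
  obtain ⟨c, hc, h⟩ := hP
  refine (CompP.of (Comp.ite0 hc (Comp.const 1) (Comp.const 0))).congr fun x w => ?_
  rw [← h]
  by_cases h0 : c x w = 0 <;> simp [h0]

protected theorem CompP.and {P Q : List α → σ → Prop} (hP : CompP K P) (hQ : CompP K Q) :
    CompP K fun x w => P x w ∧ Q x w := by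
  obtain ⟨c, hc, h⟩ := hP
  obtain ⟨d, hd, h'⟩ := hQ
  refine (CompP.of (hc.mul hd)).congr fun x w => ?_
  rw [← h, ← h', mul_ne_zero_iff]

protected theorem CompP.or {P Q : List α → σ → Prop} (hP : CompP K P) (hQ : CompP K Q) :
    CompP K fun x w => P x w ∨ Q x w :=
  (hP.not.and hQ.not).not.congr fun _ _ => by tauto

protected theorem CompP.imp {P Q : List α → σ → Prop} (hP : CompP K P) (hQ : CompP K Q) :
    CompP K fun x w => P x w → Q x w :=
  (hP.and hQ.not).not.congr fun _ _ => by tauto

protected theorem CompP.iff {P Q : List α → σ → Prop} (hP : CompP K P) (hQ : CompP K Q) :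
    CompP K fun x w => (P x w ↔ Q x w) :=
  ((hP.imp hQ).and (hQ.imp hP)).congr fun _ _ => by tauto

protected theorem CompP.lt {f g : List α → σ → ℕ} (hf : Comp K f) (hg : Comp K g) :
    CompP K fun x w => f x w < g x w :=
  (CompP.of (hg.sub hf)).congr fun _ _ => by omega

protected theorem CompP.le {f g : List α → σ → ℕ} (hf : Comp K f) (hg : Comp K g) :
    CompP K fun x w => f x w ≤ g x w :=
  (CompP.lt hg hf).not.congr fun _ _ => by omega

protected theorem CompP.eq {f g : List α → σ → ℕ} (hf : Comp K f) (hg : Comp K g) :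
    CompP K fun x w => f x w = g x w :=
  ((CompP.le hf hg).and (CompP.le hg hf)).congr fun _ _ => by omega

protected theorem CompP.ne {f g : List α → σ → ℕ} (hf : Comp K f) (hg : Comp K g) :
    CompP K fun x w => f x w ≠ g x w :=
  (CompP.eq hf hg).not

/-- The indicator of a property. -/
protected theorem Comp.ind {P : List α → σ → Prop} [∀ x w, Decidable (P x w)] (hP : CompP K P) :
    Comp K fun x w => if P x w then 1 else 0 :=
  Comp.ite hP (Comp.const 1) (Comp.const 0)

/-- Bounded quantifiers. -/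
protected theorem CompP.forall_lt {P : List α → σ → ℕ → Prop} {T : List α → σ → ℕ}
    (hP : CompP K fun x (p : σ × ℕ) => P x p.1 p.2) (hT : Comp K T) :
    CompP K fun x w => ∀ i < T x w, P x w i := by
  classical
  have hP' : CompP K fun x (p : σ × ℕ × ℕ) => P x p.1 p.2.1 :=
    hP.comp (Comp.pair Comp.id.fst Comp.id.snd.fst)
  have hle : ∀ x w i, itr (fun i b => if P x w i then b else 0) 1 i ≤ 1 := by
    intro x w i
    induction i with
    | zero => exact le_rfl
    | succ i ih =>
      rw [itr]
      split_ifs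
      · exact ih
      · omega
  refine (CompP.of (Comp.itr_nat (h := fun x w i b => if P x w i then b else 0)
    (Comp.ite hP' Comp.id.snd.snd (Comp.const 0)) (Comp.const 1) hT (Bd.const 1)
    fun x w i _ => hle x w i)).congr fun x w => ?_
  generalize T x w = t
  induction t with
  | zero => simp [itr]
  | succ t ih =>
    rw [itr]
    constructor
    · intro h i hi
      by_cases h0 : P x w t
      · rw [if_pos h0] at h
        rcases Nat.lt_succ_iff_lt_or_eq.1 hi with h1 | h1
        · exact ih.1 h i h1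
        · exact h1 ▸ h0
      · rw [if_neg h0] at h
        exact absurd rfl h
    · intro h
      rw [if_pos (h t (by omega))]
      exact ih.2 fun i hi => h i (by omega)

protected theorem CompP.exists_lt {P : List α → σ → ℕ → Prop} {T : List α → σ → ℕ}
    (hP : CompP K fun x (p : σ × ℕ) => P x p.1 p.2) (hT : Comp K T) :
    CompP K fun x w => ∃ i < T x w, P x w i :=
  (CompP.forall_lt (P := fun x w i => ¬ P x w i) hP.not hT).not.congr fun x w => by
    simp only [not_forall, not_not, exists_prop]

protected theorem CompP.read [Finite α] (Q : Option α → Prop) {f : List α → σ → ℕ} (hf : Comp K f) :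
    CompP K fun x w => Q x[f x w]? := by
  classical
  refine (CompP.of (Comp.read (fun o => if Q o then 1 else 0) hf)).congr fun x w => ?_
  by_cases h : Q x[f x w]? <;> simp [h]

/-! ### More arithmetic -/

protected theorem Comp.min {f g : List α → σ → ℕ} (hf : Comp K f) (hg : Comp K g) :
    Comp K fun x w => min (f x w) (g x w) :=
  (Comp.ite (CompP.le hf hg) hf hg).of_eq fun x w => by
    by_cases h : f x w ≤ g x w
    · rw [if_pos h, min_eq_left h]
    · rw [if_neg h, min_eq_right (by omega)]

protected theorem Comp.max {f g : List α → σ → ℕ} (hf : Comp K f) (hg : Comp K g) :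
    Comp K fun x w => max (f x w) (g x w) :=
  (Comp.ite (CompP.le hf hg) hg hf).of_eq fun x w => by
    by_cases h : f x w ≤ g x w
    · rw [if_pos h, max_eq_right h]
    · rw [if_neg h, max_eq_left (by omega)]

theorem itr_div (a b : ℕ) : itr (fun _ p => if p.2 + 1 = b then (p.1 + 1, 0)
    else (p.1, p.2 + 1)) ((0, 0) : ℕ × ℕ) a = (a / b, a % b) := by
  induction a with
  | zero => simp [itr]
  | succ a ih =>
    rw [itr, ih]
    rcases Nat.eq_zero_or_pos b with hb | hb
    · subst hb; simp
    · have h1 := Nat.div_add_mod a b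
      have h2 := Nat.mod_lt a hb
      change (if a % b + 1 = b then (a / b + 1, 0) else (a / b, a % b + 1)) = _
      by_cases h : a % b + 1 = b
      · rw [if_pos h]
        have h3 : a + 1 = 0 + b * (a / b + 1) := by rw [mul_add]; omega
        rw [h3, Nat.add_mul_div_left _ _ hb, Nat.add_mul_mod_self_left]
        simp
      · rw [if_neg h]
        have h3 : a + 1 = (a % b + 1) + b * (a / b) := by omega
        have h4 : a % b + 1 < b := by omega
        conv_rhs => rw [h3]
        rw [Nat.add_mul_div_left _ _ hb, Nat.add_mul_mod_self_left, Nat.div_eq_of_lt h4,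
          Nat.mod_eq_of_lt h4, zero_add]

protected theorem Comp.divmod {f g : List α → σ → ℕ} (hf : Comp K f) (hg : Comp K g) :
    Comp K fun x w => (f x w / g x w, f x w % g x w) := by
  refine (Comp.itr_le (F := f) (h := fun x w _ (p : ℕ × ℕ) => if p.2 + 1 = g x w
    then (p.1 + 1, 0) else (p.1, p.2 + 1)) (g := fun _ _ => ((0, 0) : ℕ × ℕ))
    ?_ (Comp.const _) hf hf.bd fun x w i hi => ?_).of_eq fun x w => itr_div _ _
  · exact Comp.ite (CompP.eq (Comp.succ Comp.id.snd.snd.snd) (hg.comp Comp.id.fst))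
      (Comp.pair (Comp.succ Comp.id.snd.snd.fst) (Comp.const 0))
      (Comp.pair Comp.id.snd.snd.fst (Comp.succ Comp.id.snd.snd.snd))
  · rw [itr_div]
    have h1 := Nat.div_le_self i (g x w)
    have h2 := Nat.mod_le i (g x w)
    exact lt_prod.2 ⟨lt_nat.2 (by change i / g x w < _; omega),
      lt_nat.2 (by change i % g x w < _; omega)⟩

protected theorem Comp.div {f g : List α → σ → ℕ} (hf : Comp K f) (hg : Comp K g) :
    Comp K fun x w => f x w / g x w := (Comp.divmod hf hg).fst

protected theorem Comp.mod {f g : List α → σ → ℕ} (hf : Comp K f) (hg : Comp K g) :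
    Comp K fun x w => f x w % g x w := (Comp.divmod hf hg).snd

theorem min_pow_succ (k a i : ℕ) : min k (min k (a ^ i) * a) = min k (a ^ (i + 1)) := by
  rcases le_total (a ^ i) k with h | h
  · rw [min_eq_right h, pow_succ]
  · rw [min_eq_left h, pow_succ]
    rcases Nat.eq_zero_or_pos a with ha | ha
    · subst ha; simp
    · rw [min_eq_left (Nat.le_mul_of_pos_right k ha),
        min_eq_left (h.trans (Nat.le_mul_of_pos_right _ ha))]

/-- Powers cut off at `k`. -/
protected theorem Comp.minPow {k f g : List α → σ → ℕ} (hk : Comp K k) (hf : Comp K f) (hg : Comp K g) :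
    Comp K fun x w => min (k x w) (f x w ^ g x w) := by
  have key : ∀ k a i : ℕ, itr (fun _ p => min k (p * a)) (min k 1) i =
      min k (a ^ i) := by
    intro k a i
    induction i with
    | zero => rfl
    | succ i ih => rw [itr, ih, min_pow_succ]
  refine (Comp.itr_nat (h := fun x w _ p => min (k x w) (p * f x w))
    (Comp.min (hk.comp Comp.id.fst) (Comp.mul Comp.id.snd.snd (hf.comp Comp.id.fst)))
    (Comp.min hk (Comp.const 1)) hg hk.bd fun x w i hi => ?_).of_eq fun x w => key _ _ _
  rw [key]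
  exact min_le_left _ _

/-- Powers which are known to be small. -/
protected theorem Comp.pow {f g : List α → σ → ℕ} (hf : Comp K f) (hg : Comp K g)
    (hb : Bd K fun x w => f x w ^ g x w) : Comp K fun x w => f x w ^ g x w := by
  have key : ∀ a i : ℕ, itr (fun _ p => p * a) 1 i = a ^ i := by
    intro a i
    induction i with
    | zero => rfl
    | succ i ih => rw [itr, ih, pow_succ]
  refine (Comp.itr_nat (h := fun x w _ p => p * f x w)
    (Comp.mul Comp.id.snd.snd (hf.comp Comp.id.fst)) (Comp.const 1) hg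
    (hb.add (Bd.const 1)) fun x w i hi => ?_).of_eq fun x w => key _ _
  rw [key]
  rcases Nat.eq_zero_or_pos (f x w) with h | h
  · rw [h]
    have : 0 ^ i ≤ 1 := by
      rcases Nat.eq_zero_or_pos i with h | h
      · subst h; simp
      · rw [zero_pow (by omega)]; omega
    exact this.trans (Nat.le_add_left _ _)
  · exact (Nat.pow_le_pow_right h hi).trans (by omega)

/-- Bounded sums. -/
protected theorem Comp.sum {f : List α → σ → ℕ → ℕ} {T : List α → σ → ℕ}
    (hf : Comp K fun x (p : σ × ℕ) => f x p.1 p.2) (hT : Comp K T) :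
    Comp K fun x w => ∑ i ∈ Finset.range (T x w), f x w i := by
  have key : ∀ (f : ℕ → ℕ) i, itr (fun i p => p + f i) 0 i = ∑ j ∈ Finset.range i, f j := by
    intro f i
    induction i with
    | zero => rfl
    | succ i ih => rw [itr, ih, Finset.sum_range_succ]
  refine (Comp.itr_nat (h := fun x w i p => p + f x w i)
    (Comp.add Comp.id.snd.snd (hf.comp (Comp.pair Comp.id.fst Comp.id.snd.fst)))
    (Comp.const 0) hT (hT.bd.mul (Bd.sup hf.bd hT.bd)) fun x w i hi => ?_).of_eq
    fun x w => key _ _
  rw [key]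
  calc ∑ j ∈ Finset.range i, f x w j
      ≤ ∑ j ∈ Finset.range i, (Finset.range (T x w + 1)).sup (f x w) :=
        Finset.sum_le_sum fun j hj => le_sup_range (by have := Finset.mem_range.1 hj; omega)
    _ = i * (Finset.range (T x w + 1)).sup (f x w) := by
        rw [Finset.sum_const, Finset.card_range, smul_eq_mul]
    _ ≤ _ := Nat.mul_le_mul_right _ hi

/-- The number of solutions. -/
protected theorem Comp.count {P : List α → σ → ℕ → Prop} [∀ x w i, Decidable (P x w i)]
    {T : List α → σ → ℕ} (hP : CompP K fun x (p : σ × ℕ) => P x p.1 p.2) (hT : Comp K T) :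
    Comp K fun x w => ((Finset.range (T x w)).filter (P x w)).card := by
  refine (Comp.sum (f := fun x w i => if P x w i then 1 else 0) (Comp.ind hP) hT).of_eq
    fun x w => ?_
  rw [Finset.card_filter]

/-- Bounded products modulo a number. -/
protected theorem Comp.prodMod {f : List α → σ → ℕ → ℕ} {T m : List α → σ → ℕ}
    (hf : Comp K fun x (p : σ × ℕ) => f x p.1 p.2) (hT : Comp K T) (hm : Comp K m) :
    Comp K fun x w => (∏ i ∈ Finset.range (T x w), f x w i) % (m x w + 1) := by
  have key : ∀ (f : ℕ → ℕ) m i, itr (fun i p => p * f i % (m + 1)) (1 % (m + 1)) i =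
      (∏ j ∈ Finset.range i, f j) % (m + 1) := by
    intro f m i
    induction i with
    | zero => rfl
    | succ i ih => rw [itr, ih, Finset.prod_range_succ, Nat.mod_mul_mod]
  refine (Comp.itr_nat (h := fun x w i p => p * f x w i % (m x w + 1))
    (Comp.mod (Comp.mul Comp.id.snd.snd (hf.comp (Comp.pair Comp.id.fst Comp.id.snd.fst)))
      (Comp.succ (hm.comp Comp.id.fst)))
    (Comp.mod (Comp.const 1) hm.succ) hT hm.bd fun x w i hi => ?_).of_eq
    fun x w => key _ _ _
  rw [key]
  exact Nat.le_of_lt_succ (Nat.mod_lt _ (Nat.succ_pos _))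

/-- Bounded search: `F` is the least `i < T` with `P i`, or `T`. -/
protected theorem Comp.search {P : List α → σ → ℕ → Prop} {T F : List α → σ → ℕ}
    (hP : CompP K fun x (p : σ × ℕ) => P x p.1 p.2) (hT : Comp K T)
    (h1 : ∀ x w, F x w ≤ T x w) (h2 : ∀ x w, ∀ i < F x w, ¬ P x w i)
    (h3 : ∀ x w, F x w < T x w → P x w (F x w)) : Comp K F := by
  classical
  have hP' : CompP K fun x (p : σ × ℕ × ℕ) => P x p.1 p.2.1 :=
    hP.comp (Comp.pair Comp.id.fst Comp.id.snd.fst)
  have key : ∀ x w, ∀ i ≤ T x w, itr (fun i v => if v = i then (if P x w i then v else v + 1)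
      else v) 0 i = min (F x w) i := by
    intro x w i
    induction i with
    | zero => intro _; rw [itr]; omega
    | succ i ih =>
      intro hi
      rw [itr, ih (by omega)]
      rcases lt_trichotomy (F x w) i with h | h | h
      · rw [min_eq_left (by omega), if_neg (by omega), min_eq_left (by omega)]
      · rw [min_eq_left (by omega), if_pos h, if_pos, min_eq_left (by omega)]
        rw [← h]
        exact h3 x w (by omega)
      · rw [min_eq_right (by omega), if_pos rfl, if_neg (h2 x w i h), min_eq_right (by omega)]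
  refine (Comp.itr_nat (h := fun x w i v => if v = i then (if P x w i then v else v + 1)
    else v) (Comp.ite (CompP.eq Comp.id.snd.snd Comp.id.snd.fst)
      (Comp.ite hP' Comp.id.snd.snd (Comp.succ Comp.id.snd.snd)) Comp.id.snd.snd)
    (Comp.const 0) hT hT.bd fun x w i hi => ?_).of_eq fun x w => ?_
  · rw [key x w i hi]
    omega
  · rw [key x w _ le_rfl]
    exact min_eq_left (h1 x w)

theorem div_pow_eq (X b i : ℕ) : X / min (X + 1) (b ^ i) = X / b ^ i := by
  rcases le_total (b ^ i) (X + 1) with h | h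
  · rw [min_eq_right h]
  · rw [min_eq_left h, Nat.div_eq_of_lt (by omega), Nat.div_eq_of_lt (by omega)]

theorem mod_pow_eq (X b i : ℕ) : X % min (X + 1) (b ^ i) = X % b ^ i := by
  rcases le_total (b ^ i) (X + 1) with h | h
  · rw [min_eq_right h]
  · rw [min_eq_left h, Nat.mod_eq_of_lt (by omega), Nat.mod_eq_of_lt (by omega)]

protected theorem Comp.divPow {f b i : List α → σ → ℕ} (hf : Comp K f) (hb : Comp K b) (hi : Comp K i) :
    Comp K fun x w => f x w / b x w ^ i x w :=
  (Comp.div hf (Comp.minPow hf.succ hb hi)).of_eq fun _ _ => div_pow_eq _ _ _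

protected theorem Comp.modPow {f b i : List α → σ → ℕ} (hf : Comp K f) (hb : Comp K b) (hi : Comp K i) :
    Comp K fun x w => f x w % b x w ^ i x w :=
  (Comp.mod hf (Comp.minPow hf.succ hb hi)).of_eq fun _ _ => mod_pow_eq _ _ _

/-- Digits. -/
protected theorem Comp.digit {f b i : List α → σ → ℕ} (hf : Comp K f) (hb : Comp K b) (hi : Comp K i) :
    Comp K fun x w => f x w / b x w ^ i x w % b x w :=
  Comp.mod (Comp.divPow hf hb hi) hb

/-- Comparison with a power. -/
protected theorem CompP.lt_pow {f b i : List α → σ → ℕ} (hf : Comp K f) (hb : Comp K b)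
    (hi : Comp K i) : CompP K fun x w => f x w < b x w ^ i x w :=
  (CompP.lt hf (Comp.minPow hf.succ hb hi)).congr fun x w => by omega

protected theorem CompP.pow_le {f b i : List α → σ → ℕ} (hf : Comp K f) (hb : Comp K b)
    (hi : Comp K i) : CompP K fun x w => b x w ^ i x w ≤ f x w :=
  (CompP.lt_pow hf hb hi).not.congr fun x w => by omega

/-- Replacing a digit. -/
def setDigit (b X i v : ℕ) : ℕ := X % b ^ i + v * b ^ i + X / b ^ (i + 1) * b ^ (i + 1)

theorem min_mul_pow (k v a : ℕ) : min k (v * min k a) = min k (v * a) := by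
  rcases le_total a k with h | h
  · rw [min_eq_right h]
  · rw [min_eq_left h]
    rcases Nat.eq_zero_or_pos v with hv | hv
    · subst hv; simp
    · rw [min_eq_left (Nat.le_mul_of_pos_left k hv),
        min_eq_left (h.trans (Nat.le_mul_of_pos_left _ hv))]

/-- Replacing a digit, cut off at `k`. -/
protected theorem Comp.setDigit {k b f i v : List α → σ → ℕ} (hk : Comp K k) (hb : Comp K b)
    (hf : Comp K f) (hi : Comp K i) (hv : Comp K v) :
    Comp K fun x w => min (k x w) (setDigit (b x w) (f x w) (i x w) (v x w)) := by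
  refine (Comp.min hk (Comp.add (Comp.add (Comp.modPow hf hb hi)
    (Comp.min hk (Comp.mul hv (Comp.minPow hk hb hi))))
    (Comp.sub hf (Comp.modPow hf hb hi.succ)))).of_eq fun x w => ?_
  rw [min_mul_pow, setDigit]
  have h := Nat.div_add_mod (f x w) (b x w ^ (i x w + 1))
  rw [mul_comm] at h
  generalize f x w % b x w ^ (i x w + 1) = a₁ at *
  generalize f x w / b x w ^ (i x w + 1) * b x w ^ (i x w + 1) = a₂ at *
  generalize v x w * b x w ^ i x w = a₃ at *
  generalize f x w % b x w ^ i x w = a₄ at *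
  omega

/-- The bits. -/
protected theorem CompP.testBit {f i : List α → σ → ℕ} (hf : Comp K f) (hi : Comp K i) :
    CompP K fun x w => (f x w).testBit (i x w) = true :=
  (CompP.eq (Comp.digit hf (Comp.const 2) hi) (Comp.const 1)).congr fun x w => by
    rw [Nat.testBit_eq_decide_div_mod_eq, decide_eq_true_eq]

/-- Logarithms. -/
protected theorem Comp.log {b f : List α → σ → ℕ} (hb : Comp K b) (hf : Comp K f) :
    Comp K fun x w => Nat.log (b x w) (f x w) := by
  have hb' : Comp K fun x (p : σ × ℕ) => b x p.1 := hb.comp Comp.id.fst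
  have hf' : Comp K fun x (p : σ × ℕ) => f x p.1 := hf.comp Comp.id.fst
  refine Comp.search (P := fun x w i => b x w < 2 ∨ f x w < b x w ^ (i + 1))
    (T := fun x w => f x w + 1)
    (CompP.or (CompP.lt hb' (Comp.const 2)) (CompP.lt_pow hf' hb' (Comp.succ Comp.id.snd)))
    hf.succ (fun x w => ?_) (fun x w i hi h => ?_) fun x w _ => ?_
  · have := Nat.log_le_self (b x w) (f x w)
    change Nat.log (b x w) (f x w) ≤ f x w + 1
    omega
  · change i < Nat.log (b x w) (f x w) at hi
    rcases h with h | h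
    · rw [Nat.log_of_left_le_one (by omega)] at hi
      omega
    · have h1 := Nat.pow_le_of_le_log (b := b x w) (x := i + 1) (y := f x w)
        (by rintro h0; rw [h0] at hi; simp at hi) hi
      omega
  · by_cases h : b x w < 2
    · exact .inl h
    · exact .inr (Nat.lt_pow_succ_log_self (by omega) _)

/-- Primes. -/
protected theorem CompP.prime {f : List α → σ → ℕ} (hf : Comp K f) :
    CompP K fun x w => (f x w).Prime := by
  have hf' : Comp K fun x (p : σ × ℕ) => f x p.1 := hf.comp Comp.id.fst
  refine ((CompP.le (Comp.const 2) hf).and (CompP.forall_lt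
    (P := fun x w d => 2 ≤ d → f x w % d ≠ 0)
    (CompP.imp (CompP.le (Comp.const 2) Comp.id.snd)
      (CompP.ne (Comp.mod hf' Comp.id.snd) (Comp.const 0))) hf)).congr fun x w => ?_
  rw [Nat.prime_def]
  constructor
  · rintro ⟨h1, h2⟩
    refine ⟨h1, fun m hm => ?_⟩
    have hm0 : 0 < m := Nat.pos_of_dvd_of_pos hm (by omega)
    have hmle := Nat.le_of_dvd (by omega) hm
    by_contra h
    push Not at h
    exact h2 m (by omega) (by omega) (Nat.mod_eq_zero_of_dvd hm)
  · rintro ⟨h1, h2⟩
    refine ⟨h1, fun d hd hd2 h => ?_⟩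
    rcases h2 d (Nat.dvd_of_mod_eq_zero h) with h | h <;> omega

/-- The least prime number greater than `m`. -/
def nextPrime (m : ℕ) : ℕ := Nat.find (Nat.exists_infinite_primes (m + 1))

theorem nextPrime_prime (m : ℕ) : (nextPrime m).Prime :=
  (Nat.find_spec (Nat.exists_infinite_primes (m + 1))).2

theorem lt_nextPrime (m : ℕ) : m < nextPrime m :=
  (Nat.find_spec (Nat.exists_infinite_primes (m + 1))).1

theorem nextPrime_le (m : ℕ) : nextPrime m ≤ 2 * m + 2 := by
  rcases Nat.eq_zero_or_pos m with h | h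
  · subst h
    exact Nat.find_min' _ ⟨by norm_num, Nat.prime_two⟩
  · obtain ⟨p, hp, h1, h2⟩ := Nat.exists_prime_lt_and_le_two_mul m (by omega)
    exact (Nat.find_min' _ ⟨h1, hp⟩).trans (by omega)

protected theorem Comp.nextPrime {f : List α → σ → ℕ} (hf : Comp K f) :
    Comp K fun x w => nextPrime (f x w) := by
  have hf' : Comp K fun x (p : σ × ℕ) => f x p.1 := hf.comp Comp.id.fst
  refine Comp.search (P := fun x w i => f x w + 1 ≤ i ∧ i.Prime)
    (T := fun x w => 2 * f x w + 2)
    (CompP.and (CompP.le hf'.succ Comp.id.snd) (CompP.prime Comp.id.snd))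
    (Comp.add (Comp.mul (Comp.const 2) hf) (Comp.const 2))
    (fun x w => nextPrime_le _) (fun x w i hi => Nat.find_min _ hi)
    fun x w _ => Nat.find_spec (Nat.exists_infinite_primes (f x w + 1))

protected theorem Comp.sqrt {f : List α → σ → ℕ} (hf : Comp K f) :
    Comp K fun x w => Nat.sqrt (f x w) := by
  have hf' : Comp K fun x (p : σ × ℕ) => f x p.1 := hf.comp Comp.id.fst
  refine Comp.search (P := fun x w i => f x w < (i + 1) * (i + 1)) (T := f)
    (CompP.lt hf' (Comp.mul (Comp.succ Comp.id.snd) (Comp.succ Comp.id.snd))) hf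
    (fun x w => Nat.sqrt_le_self _) (fun x w i hi h => ?_) fun x w _ => Nat.lt_succ_sqrt _
  have h1 : (i + 1) * (i + 1) ≤ Nat.sqrt (f x w) * Nat.sqrt (f x w) := Nat.mul_le_mul hi hi
  have h2 := Nat.sqrt_le (f x w)
  change f x w < (i + 1) * (i + 1) at h
  omega

/-! ### Case distinctions -/

/-- Finite case distinction. -/
protected theorem Comp.cases {F : ℕ → List α → σ → τ} {d : List α → σ → τ} {f : List α → σ → ℕ} (m : ℕ)
    (hF : ∀ a < m, Comp K (F a)) (hd : Comp K d) (hf : Comp K f) :
    Comp K fun x w => if f x w < m then F (f x w) x w else d x w := by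
  induction m with
  | zero => exact hd.of_eq fun x w => (if_neg (Nat.not_lt_zero _)).symm
  | succ m ih =>
    refine (Comp.ite (CompP.eq hf (Comp.const m)) (hF m (by omega))
      (ih fun a ha => hF a (by omega))).of_eq fun x w => ?_
    by_cases h : f x w = m
    · rw [if_pos h, if_pos (by omega), h]
    · rw [if_neg h]
      by_cases h2 : f x w < m
      · rw [if_pos h2, if_pos (by omega)]
      · rw [if_neg h2, if_neg (by omega)]

/-- Finite tables. -/
protected theorem Comp.table (G : ℕ → ℕ) (m : ℕ) {f : List α → σ → ℕ} (hf : Comp K f) :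
    Comp K fun x w => if f x w < m then G (f x w) else 0 :=
  Comp.cases (F := fun a _ _ => G a) m (fun a _ => Comp.const (G a)) (Comp.const 0) hf

protected theorem Comp.table₂ (G : ℕ → ℕ → ℕ) (m : ℕ) {f g : List α → σ → ℕ} (hf : Comp K f)
    (hg : Comp K g) :
    Comp K fun x w => if f x w < m then (if g x w < m then G (f x w) (g x w) else 0) else 0 :=
  Comp.cases (F := fun a x w => if g x w < m then G a (g x w) else 0) m
    (fun a _ => Comp.table (G a) m hg) (Comp.const 0) hf

/-- Case distinction by the letter at a position. -/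
protected theorem Comp.readCases [Finite α] {F : Option α → List α → σ → τ} (hF : ∀ a, Comp K (F a))
    {f : List α → σ → ℕ} (hf : Comp K f) : Comp K fun x w => F x[f x w]? x w := by
  obtain ⟨k, ⟨e⟩⟩ := Finite.exists_equiv_fin (Option α)
  have h := Comp.cases (K := K) (F := fun a => if h : a < k then F (e.symm ⟨a, h⟩) else F none) k
    (fun a ha => by
      rw [dif_pos ha]
      exact hF _) (hF none) (Comp.read (fun o => (e o).val) hf)
  refine h.of_eq fun x w => ?_
  rw [if_pos (e x[f x w]?).isLt, dif_pos (e x[f x w]?).isLt]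
  simp

/-- The program of a computable function. -/
protected theorem Comp.run {f : List α → Unit → ℕ} (hf : Comp K f) : ∃ (c : Cmd α) (e : ℕ),
    ∀ (x : List α) (B : ℕ), 2 ≤ B → K x < B →
      Run x (B ^ e) c (fun _ => 0) (update (fun _ => 0) 0 (f x ())) := by
  rw [Comp.nat] at hf
  obtain ⟨e, _, h⟩ := hf
  obtain ⟨c, hc⟩ := h Fin.elim0 0 1 (fun i => i.elim0) (by omega) (fun i => i.elim0)
  exact ⟨c, e, fun x B hB hx => hc x B (fun _ => 0) hB hx (fun i => i.elim0) rfl
    fun _ _ => rfl⟩

end SP

end Pool.Agent.MP_6216ea_lc
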