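import Pool.Agent.Lib.MP_6216ea_lc.SP.Model

/-! Basic programs: clear, move, copy; blocks of variables. -/

set_option autoImplicit false

namespace Pool.Agent.MP_6216ea_lc

namespace SP

open Function

variable {α : Type} {x : List α} {B : ℕ}

theorem Run.mono {B' : ℕ} (hB : B ≤ B') {c : Cmd α} {s t : ℕ → ℕ} (h : Run x B c s t) :
    Run x B' c s t := by
  induction h with
  | skip s => exact .skip s
  | inc v s h => exact .inc v s (by omega)
  | dec v s => exact .dec v s
  | read v w f s h => exact .read v w f s (by omega)
  | seq _ _ ih₁ ih₂ => exact .seq ih₁ ih₂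
  | iteZero h _ ih => exact .iteZero h ih
  | itePos h _ ih => exact .itePos h ih
  | loopDone h => exact .loopDone h
  | loopStep h _ _ ih₁ ih₂ => exact .loopStep h ih₁ ih₂

theorem run_of_eq {c : Cmd α} {s t t' : ℕ → ℕ} (h : Run x B c s t) (e : t = t') :
    Run x B c s t' := e ▸ h

/-- `v := 0` -/
def clear (v : ℕ) : Cmd α := .loop v (.dec v)

theorem run_clear (v : ℕ) (s : ℕ → ℕ) : Run x B (clear v) s (update s v 0) := by
  obtain ⟨m, hm⟩ : ∃ m, s v = m := ⟨_, rfl⟩
  induction m generalizing s with
  | zero =>
    have : update s v 0 = s := by rw [← hm, update_eq_self]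
    rw [this]
    exact .loopDone hm
  | succ m ih =>
    refine .loopStep (by omega) (.dec v s) (run_of_eq (ih _ ?_) ?_)
    · rw [update_self]; omega
    · rw [update_idem]

/-- `v := v + u, u := 0` -/
def move (u v : ℕ) : Cmd α := .loop u (.seq (.dec u) (.inc v))

theorem run_move {u v : ℕ} (huv : u ≠ v) (s : ℕ → ℕ) (h : s u + s v < B) :
    Run x B (move u v) s (update (update s u 0) v (s v + s u)) := by
  obtain ⟨m, hm⟩ : ∃ m, s u = m := ⟨_, rfl⟩
  induction m generalizing s with
  | zero =>
    have : update (update s u 0) v (s v + s u) = s := by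
      rw [hm, add_zero, ← hm, update_eq_self, update_eq_self]
    rw [this]
    exact .loopDone hm
  | succ m ih =>
    refine .loopStep (by omega) (.seq (.dec u s) (.inc v _ ?_)) (run_of_eq (ih _ ?_ ?_) ?_)
    · rw [update_of_ne huv.symm]; omega
    · rw [update_of_ne huv, update_self, update_self, update_of_ne huv.symm]; omega
    · rw [update_of_ne huv, update_self]; omega
    · funext w
      by_cases hw : w = v
      · subst hw
        simp only [update_self, update_of_ne huv, update_of_ne huv.symm]
        omega
      · by_cases hw' : w = u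
        · subst hw'
          simp [update_of_ne hw]
        · simp [update_of_ne hw, update_of_ne hw']

/-- `v := v + u, w := w + u, u := 0` -/
def move₂ (u v w : ℕ) : Cmd α := .loop u (.seq (.dec u) (.seq (.inc v) (.inc w)))

theorem run_move₂ {u v w : ℕ} (huv : u ≠ v) (huw : u ≠ w) (hvw : v ≠ w) (s : ℕ → ℕ)
    (h : s u + s v < B) (h' : s u + s w < B) :
    Run x B (move₂ u v w) s
      (update (update (update s u 0) v (s v + s u)) w (s w + s u)) := by
  obtain ⟨m, hm⟩ : ∃ m, s u = m := ⟨_, rfl⟩
  induction m generalizing s with
  | zero =>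
    have : update (update (update s u 0) v (s v + s u)) w (s w + s u) = s := by
      rw [hm, add_zero, add_zero, ← hm, update_eq_self, update_eq_self, update_eq_self]
    rw [this]
    exact .loopDone hm
  | succ m ih =>
    refine .loopStep (by omega) (.seq (.dec u s) (.seq (.inc v _ ?_) (.inc w _ ?_)))
      (run_of_eq (ih _ ?_ ?_ ?_) ?_)
    · rw [update_of_ne huv.symm]; omega
    · rw [update_of_ne hvw.symm, update_of_ne huw.symm]; omega
    · simp only [update_self, update_of_ne huv, update_of_ne huv.symm, update_of_ne huw,
        update_of_ne huw.symm, update_of_ne hvw, update_of_ne hvw.symm]; omega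
    · simp only [update_self, update_of_ne huv, update_of_ne huv.symm, update_of_ne huw,
        update_of_ne huw.symm, update_of_ne hvw, update_of_ne hvw.symm]; omega
    · simp only [update_self, update_of_ne huv, update_of_ne huv.symm, update_of_ne huw,
        update_of_ne huw.symm, update_of_ne hvw, update_of_ne hvw.symm]; omega
    · funext z
      by_cases h1 : z = w
      · subst h1
        simp only [update_self, update_of_ne huv, update_of_ne huv.symm, update_of_ne huw,
          update_of_ne huw.symm, update_of_ne hvw, update_of_ne hvw.symm]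
        omega
      · by_cases h2 : z = v
        · subst h2
          simp only [update_self, update_of_ne huv, update_of_ne huv.symm, update_of_ne huw,
            update_of_ne huw.symm, update_of_ne hvw, update_of_ne hvw.symm]
          omega
        · by_cases h3 : z = u
          · subst h3
            simp [update_of_ne h1, update_of_ne h2]
          · simp [update_of_ne h1, update_of_ne h2, update_of_ne h3]

/-- `r := r + u` with the help of `w = 0` -/
def copy (u r w : ℕ) : Cmd α := .seq (move₂ u r w) (move w u)

theorem run_copy {u r w : ℕ} (hur : u ≠ r) (huw : u ≠ w) (hrw : r ≠ w) (s : ℕ → ℕ)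
    (h : s u + s r < B) (h' : s u < B) (hw : s w = 0) :
    Run x B (copy u r w) s (update s r (s r + s u)) := by
  refine .seq (run_move₂ hur huw hrw s h (by omega)) (run_of_eq (run_move huw.symm _ ?_) ?_)
  · simp only [update_self, update_of_ne hur, update_of_ne huw]; omega
  · funext z
    by_cases h1 : z = u
    · subst h1
      simp only [update_self, update_of_ne hur, update_of_ne huw]
      omega
    · by_cases h2 : z = w
      · subst h2
        simp only [update_self, update_of_ne h1, update_of_ne hrw.symm]
        omega
      · by_cases h3 : z = r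
        · subst h3
          simp only [update_self, update_of_ne h1, update_of_ne h2]
        · simp only [update_of_ne h1, update_of_ne h2, update_of_ne h3]

/-- The values `s` with the variables `N, ..., N + m - 1` set to `w`. -/
def blk {m : ℕ} (s : ℕ → ℕ) (N : ℕ) (w : Fin m → ℕ) : ℕ → ℕ :=
  fun v => if h : N ≤ v ∧ v < N + m then w ⟨v - N, by omega⟩ else s v

theorem blk_of_lt {m : ℕ} (s : ℕ → ℕ) (N : ℕ) (w : Fin m → ℕ) {v : ℕ} (h : v < N) :
    blk s N w v = s v := by
  rw [blk, dif_neg (by omega)]

theorem blk_of_ge {m : ℕ} (s : ℕ → ℕ) (N : ℕ) (w : Fin m → ℕ) {v : ℕ} (h : N + m ≤ v) :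
    blk s N w v = s v := by
  rw [blk, dif_neg (by omega)]

theorem blk_add {m : ℕ} (s : ℕ → ℕ) (N : ℕ) (w : Fin m → ℕ) (i : Fin m) :
    blk s N w (N + i.val) = w i := by
  have := i.isLt
  rw [blk, dif_pos (by omega)]
  congr 1
  apply Fin.ext
  simp

theorem blk_zero (s : ℕ → ℕ) (N : ℕ) (w : Fin 0 → ℕ) : blk s N w = s := by
  funext v
  rw [blk, dif_neg (by omega)]

/-- Run `m` programs one after the other. -/
def seqAll : (m : ℕ) → (Fin m → Cmd α) → Cmd α
  | 0, _ => .skip
  | m + 1, c => .seq (seqAll m fun i => c i.castSucc) (c (Fin.last m))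

/-- Filling a block. -/
theorem run_seqAll {m N : ℕ} (c : Fin m → Cmd α) (s : ℕ → ℕ) (w : Fin m → ℕ)
    (h : ∀ (i : Fin m) (s' : ℕ → ℕ), (∀ v, (N ≤ v ∧ v < N + i.val) ∨ s' v = s v) →
      Run x B (c i) s' (update s' (N + i.val) (w i))) :
    Run x B (seqAll m c) s (blk s N w) := by
  induction m with
  | zero => rw [blk_zero]; exact .skip s
  | succ m ih =>
    refine .seq (ih (fun i => c i.castSucc) (fun i => w i.castSucc) fun i s' hs' =>
      h i.castSucc s' hs') (run_of_eq (h (Fin.last m) _ ?_) ?_)
    · intro v
      by_cases hv : N ≤ v ∧ v < N + m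
      · exact .inl hv
      · right
        rw [blk, dif_neg hv]
    · funext v
      by_cases hv : v = N + m
      · subst hv
        have := blk_add s N w (Fin.last m)
        simp only [Fin.val_last] at this ⊢
        rw [update_self, this]
      · have hv' : v ≠ N + (Fin.last m).val := by simpa using hv
        rw [update_of_ne hv', blk, blk]
        by_cases h1 : N ≤ v ∧ v < N + m
        · rw [dif_pos h1, dif_pos (by omega)]
          rfl
        · rw [dif_neg h1, dif_neg (by omega)]

/-- Clearing a block. -/
def clearAll (m N : ℕ) : Cmd α := seqAll m fun i => clear (N + i.val)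

theorem run_clearAll (m N : ℕ) (s : ℕ → ℕ) :
    Run x B (clearAll m N) s (blk s N (fun _ : Fin m => 0)) :=
  run_seqAll _ _ _ fun _ s' _ => run_clear _ s'

end SP

end Pool.Agent.MP_6216ea_lc
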