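import Pool.Agent.Lib.MP_6216ea_lc.SP.Base

/-! Functions computed by while programs with polynomially bounded variables. -/

set_option autoImplicit false

namespace Pool.Agent.MP_6216ea_lc

namespace SP

open Function

variable {α : Type} {K : List α → ℕ}

/-- `f` is computed by a program: from the variables `a i` into the variable `r`, all variables
from `N` on are scratch; if `K` and the arguments are smaller than `B` then all values are smaller than `B ^ e`. -/
def CompN (K : List α → ℕ) {k : ℕ} (f : List α → (Fin k → ℕ) → ℕ) : Prop :=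
  ∃ e : ℕ, (∀ (x : List α) (B : ℕ) (v : Fin k → ℕ), 2 ≤ B → K x < B → (∀ i, v i < B) →
      f x v < B ^ e) ∧
    ∀ (a : Fin k → ℕ) (r N : ℕ), (∀ i, a i < N) → r < N → (∀ i, a i ≠ r) → ∃ c : Cmd α,
      ∀ (x : List α) (B : ℕ) (s : ℕ → ℕ), 2 ≤ B → K x < B → (∀ i, s (a i) < B) → s r = 0 →
        (∀ v, N ≤ v → s v = 0) → Run x (B ^ e) c s (update s r (f x fun i => s (a i)))

theorem CompN.proj {k : ℕ} (i : Fin k) : CompN K (fun _ v => v i) := by
  refine ⟨1, fun x B v _ _ hv => by simpa using hv i, fun a r N ha hr har => ⟨copy (a i) r N,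
    fun x B s _ _ hs hr0 hN => ?_⟩⟩
  have h := run_copy (x := x) (B := B ^ 1) (har i) (ha i).ne hr.ne s
    (by rw [hr0, pow_one]; simpa using hs i) (by rw [pow_one]; exact hs i) (hN N le_rfl)
  rwa [hr0, zero_add] at h

/-- `v := v + m` -/
def incs (v : ℕ) : ℕ → Cmd α
  | 0 => .skip
  | m + 1 => .seq (incs v m) (.inc v)

theorem run_incs {x : List α} {B : ℕ} (v m : ℕ) (s : ℕ → ℕ) (h : s v + m < B) :
    Run x B (incs v m) s (update s v (s v + m)) := by
  induction m with
  | zero => rw [add_zero, update_eq_self]; exact .skip s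
  | succ m ih =>
    refine .seq (ih (by omega)) (run_of_eq (.inc v _ ?_) ?_)
    · rw [update_self]; omega
    · rw [update_self, update_idem, add_assoc]

theorem CompN.const {k : ℕ} (m : ℕ) : CompN K (k := k) (fun _ _ => m) := by
  have hm : ∀ B : ℕ, 2 ≤ B → m < B ^ m := fun B hB => Nat.lt_pow_self (by omega)
  refine ⟨m, fun x B v hB _ _ => hm B hB, fun a r N ha hr har => ⟨incs r m,
    fun x B s hB _ hs hr0 hN => ?_⟩⟩
  have h := run_incs (x := x) (B := B ^ m) r m s (by rw [hr0, zero_add]; exact hm B hB)
  rwa [hr0, zero_add] at h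

theorem CompN.succ : CompN K (k := 1) (fun _ v => v 0 + 1) := by
  have hB2 : ∀ B m : ℕ, 2 ≤ B → m < B → m + 1 < B ^ 2 := fun B m hB hm => by nlinarith
  refine ⟨2, fun x B v hB _ hv => hB2 B _ hB (hv 0), fun a r N ha hr har =>
    ⟨.seq (copy (a 0) r N) (.inc r), fun x B s hB _ hs hr0 hN => ?_⟩⟩
  have h := run_copy (x := x) (B := B ^ 2) (har 0) (ha 0).ne hr.ne s
    (by rw [hr0]; have := hB2 B _ hB (hs 0); omega) (by have := hB2 B _ hB (hs 0); omega)
    (hN N le_rfl)
  refine .seq h (run_of_eq (.inc r _ ?_) ?_)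
  · rw [update_self, hr0, zero_add]; exact hB2 B _ hB (hs 0)
  · rw [update_self, update_idem, hr0, zero_add]

theorem CompN.pred : CompN K (k := 1) (fun _ v => v 0 - 1) := by
  refine ⟨1, fun x B v _ _ hv => by have := hv 0; rw [pow_one]; change v 0 - 1 < B; omega,
    fun a r N ha hr har => ⟨.seq (copy (a 0) r N) (.dec r), fun x B s _ _ hs hr0 hN => ?_⟩⟩
  have h := run_copy (x := x) (B := B ^ 1) (har 0) (ha 0).ne hr.ne s
    (by rw [hr0, pow_one]; simpa using hs 0) (by rw [pow_one]; exact hs 0) (hN N le_rfl)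
  refine .seq h (run_of_eq (.dec r _) ?_)
  rw [update_self, update_idem, hr0, zero_add]

theorem CompN.read [Finite α] (g : Option α → ℕ) :
    CompN K (k := 1) (fun (x : List α) v => g x[v 0]?) := by
  have := Fintype.ofFinite α
  obtain ⟨M, hM⟩ : ∃ M, ∀ o, g o ≤ M :=
    ⟨Finset.univ.sup g, fun o => Finset.le_sup (Finset.mem_univ o)⟩
  have hB : ∀ (B : ℕ) (o : Option α), 2 ≤ B → g o < B ^ M := fun B o hB =>
    (hM o).trans_lt (Nat.lt_pow_self (by omega))
  exact ⟨M, fun x B v hB2 _ _ => hB B _ hB2, fun a r N _ _ _ => ⟨.read r (a 0) g,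
    fun x B s hB2 _ _ _ _ => .read r (a 0) g s (hB B _ hB2)⟩⟩

/-- `if v = 0 then w else z` -/
theorem CompN.ite : CompN K (k := 3) (fun _ v => if v 0 = 0 then v 1 else v 2) := by
  refine ⟨1, fun x B v _ _ hv => ?_, fun a r N ha hr har =>
    ⟨.ite (a 0) (copy (a 1) r N) (copy (a 2) r N), fun x B s _ _ hs hr0 hN => ?_⟩⟩
  · rw [pow_one]
    change (if v 0 = 0 then v 1 else v 2) < B
    split_ifs
    · exact hv 1
    · exact hv 2
  · have h : ∀ i, Run x (B ^ 1) (copy (a i) r N) s (update s r (s (a i))) := fun i => by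
      have h := run_copy (x := x) (B := B ^ 1) (har i) (ha i).ne hr.ne s
        (by rw [hr0, pow_one]; simpa using hs i) (by rw [pow_one]; exact hs i) (hN N le_rfl)
      rwa [hr0, zero_add] at h
    change Run x (B ^ 1) _ s (update s r (if s (a 0) = 0 then s (a 1) else s (a 2)))
    by_cases h0 : s (a 0) = 0
    · rw [if_pos h0]
      exact .iteZero h0 (h 1)
    · rw [if_neg h0]
      exact .itePos h0 (h 2)

/-- The loop which finds the length. -/
theorem run_len {x : List α} {B : ℕ} {r N : ℕ} (hrN : r ≠ N) (hB : x.length < B) (hB2 : 2 ≤ B)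
    (s : ℕ → ℕ) (m i : ℕ) (hi : i + m = x.length) :
    Run x B (.loop N (.seq (.inc r) (.read N r fun o => if o.isSome then 1 else 0)))
      (update (update s r i) N (if (x[i]?).isSome then 1 else 0))
      (update (update s r x.length) N 0) := by
  induction m generalizing i with
  | zero =>
    have h : i = x.length := by omega
    subst h
    have : (if (x[x.length]?).isSome then 1 else 0) = 0 := by simp
    rw [this]
    exact .loopDone (update_self _ _ _)
  | succ m ih =>
    have h1 : (if (x[i]?).isSome then 1 else 0) = 1 := by simp; omega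
    rw [h1]
    refine .loopStep (by rw [update_self]; omega) (.seq (.inc r _ ?_) (.read N r _ _ ?_)) ?_
    · rw [update_of_ne hrN, update_self]; omega
    · split_ifs <;> omega
    · have e1 : update (update (update s r i) N 1) r (update (update s r i) N 1 r + 1) =
          update (update s r (i + 1)) N 1 := by
        rw [update_of_ne hrN, update_self, update_comm hrN.symm, update_idem]
      rw [e1, update_of_ne hrN, update_self, update_idem]
      exact ih (i + 1) (by omega)

/-- The length of the input. -/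
theorem CompN.length {k : ℕ} (hK : ∀ x, x.length ≤ K x) :
    CompN K (k := k) (fun x _ => x.length) := by
  refine ⟨1, fun x B v _ hB _ => by
    have := hK x
    rw [pow_one]
    change x.length < B
    omega, fun a r N ha hr har => ⟨.seq (.read N r fun o => if o.isSome then 1 else 0)
      (.loop N (.seq (.inc r) (.read N r fun o => if o.isSome then 1 else 0))),
    fun x B s hB2 hB hs hr0 hN => ?_⟩⟩
  have hx : x.length < B ^ 1 := by have := hK x; rw [pow_one]; omega
  refine .seq (.read N r _ s (by rw [pow_one]; split_ifs <;> omega)) ?_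
  have h := run_len (N := N) hr.ne hx (by rw [pow_one]; exact hB2) s x.length 0 (by omega)
  have e1 : update s r 0 = s := by rw [← hr0, update_eq_self]
  rw [e1] at h
  rw [hr0]
  refine run_of_eq h ?_
  change update (update s r x.length) N 0 = update s r x.length
  rw [← hN N le_rfl, update_comm hr.ne, update_eq_self]

theorem pow_mul_le {B E e₁ e₂ : ℕ} (hB : 2 ≤ B) (h : E * e₁ ≤ e₂) : (B ^ E) ^ e₁ ≤ B ^ e₂ := by
  rw [← pow_mul]
  exact Nat.pow_le_pow_right (by omega) h

/-- Composition. -/
theorem CompN.comp {k m : ℕ} {H : List α → (Fin m → ℕ) → ℕ}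
    {G : Fin m → List α → (Fin k → ℕ) → ℕ} (hH : CompN K H) (hG : ∀ j, CompN K (G j)) :
    CompN K (fun x v => H x fun j => G j x v) := by
  choose eG bG pG using hG
  obtain ⟨eH, bH, pH⟩ := hH
  obtain ⟨E, hE⟩ : ∃ E, E = 1 + ∑ j, eG j := ⟨_, rfl⟩
  have hEj : ∀ j, eG j ≤ E := fun j => by
    have := Finset.single_le_sum (f := eG) (fun i _ => Nat.zero_le _) (Finset.mem_univ j)
    omega
  have hBE : ∀ B : ℕ, 2 ≤ B → B ≤ B ^ E := fun B hB => by
    calc B = B ^ 1 := (pow_one B).symm
      _ ≤ B ^ E := Nat.pow_le_pow_right (by omega) (by omega)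
  have hGv : ∀ (x : List α) (B : ℕ) (v : Fin k → ℕ), 2 ≤ B → K x < B → (∀ i, v i < B) →
      ∀ j, G j x v < B ^ E := fun x B v hB hx hv j =>
    (bG j x B v hB hx hv).trans_le (Nat.pow_le_pow_right (by omega) (hEj j))
  refine ⟨E * (eH + 1), fun x B v hB hx hv => ?_, fun a r N ha hr har => ?_⟩
  · exact (bH x (B ^ E) _ (hB.trans (hBE B hB)) (hx.trans_le (hBE B hB))
      (hGv x B v hB hx hv)).trans_le (pow_mul_le hB (by nlinarith))
  · choose c hc using fun j : Fin m => pG j a (N + j.val) (N + m)
      (fun i => by have := ha i; omega) (by omega) (fun i => by have := ha i; omega)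
    obtain ⟨d, hd⟩ := pH (fun j => N + j.val) r (N + m) (fun j => by omega) (by omega)
      (fun j => by omega)
    refine ⟨.seq (seqAll m c) (.seq d (clearAll m N)), fun x B s hB hx hs hr0 hN => ?_⟩
    have h1 : Run x (B ^ (E * (eH + 1))) (seqAll m c) s
        (blk s N fun j => G j x fun i => s (a i)) := by
      refine run_seqAll c s _ fun j s' hs' => ?_
      have e1 : ∀ v, v < N ∨ N + j.val ≤ v → s' v = s v := fun v hv => by
        rcases hs' v with h | h
        · omega
        · exact h
      have e2 : (fun i => s' (a i)) = fun i => s (a i) := by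
        funext i
        exact e1 _ (.inl (ha i))
      have h := hc j x B s' hB hx (fun i => by rw [e1 _ (.inl (ha i))]; exact hs i)
        (by rw [e1 _ (.inr le_rfl)]; exact hN _ (by omega))
        (fun v hv => by rw [e1 _ (.inr (by omega))]; exact hN _ (by omega))
      rw [e2] at h
      exact Run.mono (Nat.pow_le_pow_right (by omega) ((hEj j).trans (by nlinarith))) h
    have h2 := hd x (B ^ E) (blk s N fun j => G j x fun i => s (a i)) (hB.trans (hBE B hB))
      (hx.trans_le (hBE B hB))
      (fun j => by rw [blk_add]; exact hGv x B _ hB hx hs j)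
      (by rw [blk_of_lt _ _ _ hr]; exact hr0)
      (fun v hv => by rw [blk_of_ge _ _ _ hv]; exact hN v (by omega))
    refine .seq h1 (.seq (Run.mono (pow_mul_le hB (by nlinarith)) h2)
      (run_of_eq (run_clearAll m N _) ?_))
    have e3 : (fun j : Fin m => blk s N (fun j => G j x fun i => s (a i)) (N + j.val)) =
        fun j => G j x fun i => s (a i) := by
      funext j
      rw [blk_add]
    rw [e3]
    funext v
    by_cases h1 : v < N
    · rw [blk_of_lt _ _ _ h1]
      by_cases h2 : v = r
      · subst h2; rw [update_self, update_self]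
      · rw [update_of_ne h2, update_of_ne h2, blk_of_lt _ _ _ h1]
    · by_cases h2 : N + m ≤ v
      · rw [blk_of_ge _ _ _ h2, update_of_ne (by omega), update_of_ne (by omega),
          blk_of_ge _ _ _ h2]
      · rw [blk, dif_pos (by omega), update_of_ne (by omega), hN v (by omega)]

end SP

end Pool.Agent.MP_6216ea_lc
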