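import Mathlib

/-! While programs over the natural numbers whose variables are bounded (deterministic space). -/

set_option autoImplicit false

namespace Pool.Agent.MP_6216ea_lc

/-- While programs over the variables `0, 1, 2, ...` (natural numbers): `inc v`, `dec v` add and
subtract one, `read v w f` sets `v` to `f` of the letter of the input at the position `w` (`none`
beyond the end), `ite v c d` is `if v = 0 then c else d`, `loop v c` is `while v ≠ 0 do c`. -/
inductive Cmd (α : Type) : Type
  | skip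
  | inc (v : ℕ)
  | dec (v : ℕ)
  | read (v w : ℕ) (f : Option α → ℕ)
  | seq (c d : Cmd α)
  | ite (v : ℕ) (c d : Cmd α)
  | loop (v : ℕ) (c : Cmd α)

/-- `Run x B c s t`: on the input `x`, started with the values `s`, the program `c` halts with the
values `t`, and all values which it assigns are smaller than `B`. -/
inductive Run {α : Type} (x : List α) (B : ℕ) : Cmd α → (ℕ → ℕ) → (ℕ → ℕ) → Prop
  | skip (s : ℕ → ℕ) : Run x B Cmd.skip s s
  | inc (v : ℕ) (s : ℕ → ℕ) : s v + 1 < B → Run x B (Cmd.inc v) s (Function.update s v (s v + 1))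
  | dec (v : ℕ) (s : ℕ → ℕ) : Run x B (Cmd.dec v) s (Function.update s v (s v - 1))
  | read (v w : ℕ) (f : Option α → ℕ) (s : ℕ → ℕ) : f x[s w]? < B →
      Run x B (Cmd.read v w f) s (Function.update s v (f x[s w]?))
  | seq {c d : Cmd α} {s t u : ℕ → ℕ} : Run x B c s t → Run x B d t u →
      Run x B (Cmd.seq c d) s u
  | iteZero {v : ℕ} {c d : Cmd α} {s t : ℕ → ℕ} : s v = 0 → Run x B c s t →
      Run x B (Cmd.ite v c d) s t
  | itePos {v : ℕ} {c d : Cmd α} {s t : ℕ → ℕ} : s v ≠ 0 → Run x B d s t →
      Run x B (Cmd.ite v c d) s t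
  | loopDone {v : ℕ} {c : Cmd α} {s : ℕ → ℕ} : s v = 0 → Run x B (Cmd.loop v c) s s
  | loopStep {v : ℕ} {c : Cmd α} {s t u : ℕ → ℕ} : s v ≠ 0 → Run x B c s t →
      Run x B (Cmd.loop v c) t u → Run x B (Cmd.loop v c) s u

end Pool.Agent.MP_6216ea_lc
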