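import Pool.Agent.Lib.MP_6216ea_lc.SP.CompN

/-! Bounded recursion. -/

set_option autoImplicit false

namespace Pool.Agent.MP_6216ea_lc

namespace SP

open Function

variable {α : Type} {K : List α → ℕ}

/-- The arguments of the recursion step: the parameters, the counter, the values. -/
def app3 {k m : ℕ} (v : Fin k → ℕ) (i : ℕ) (w : Fin m → ℕ) : Fin (k + 1 + m) → ℕ :=
  Fin.append (Fin.append v fun _ : Fin 1 => i) w

theorem app3_comp {k m : ℕ} (f : ℕ → ℕ) (v : Fin k → ℕ) (i : ℕ) (w : Fin m → ℕ) :
    (fun j => f (app3 v i w j)) = app3 (fun j => f (v j)) (f i) fun j => f (w j) := by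
  funext j
  refine Fin.addCases (fun j => ?_) (fun j => ?_) j
  · refine Fin.addCases (fun j => ?_) (fun j => ?_) j
    · simp [app3]
    · simp [app3]
  · simp [app3]

theorem app3_all {k m : ℕ} {p : ℕ → Prop} {v : Fin k → ℕ} {i : ℕ} {w : Fin m → ℕ}
    (hv : ∀ j, p (v j)) (hi : p i) (hw : ∀ j, p (w j)) (j : Fin (k + 1 + m)) :
    p (app3 v i w j) := by
  refine Fin.addCases (fun j => ?_) (fun j => ?_) j
  · refine Fin.addCases (fun j => ?_) (fun j => ?_) j
    · simpa [app3] using hv j
    · simpa [app3] using hi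
  · simpa [app3] using hw j

/-- The iteration. -/
def iter {k m : ℕ} (g : Fin m → List α → (Fin k → ℕ) → ℕ)
    (h : Fin m → List α → (Fin (k + 1 + m) → ℕ) → ℕ) (x : List α) (v : Fin k → ℕ) :
    ℕ → Fin m → ℕ
  | 0, j => g j x v
  | i + 1, j => h j x (app3 v i (iter g h x v i))

/-- The values during the loop. -/
def lst {m : ℕ} (s : ℕ → ℕ) (N : ℕ) (w : Fin m → ℕ) (i c : ℕ) : ℕ → ℕ :=
  fun v => if h : N ≤ v ∧ v < N + m then w ⟨v - N, by omega⟩
    else if v = N + m then i else if v = N + m + 1 then c else s v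

theorem lst_w {m : ℕ} (s : ℕ → ℕ) (N : ℕ) (w : Fin m → ℕ) (i c : ℕ) (j : Fin m) :
    lst s N w i c (N + j.val) = w j := by
  rw [lst, dif_pos (by omega)]
  congr 1
  apply Fin.ext
  simp

theorem lst_i {m : ℕ} (s : ℕ → ℕ) (N : ℕ) (w : Fin m → ℕ) (i c : ℕ) :
    lst s N w i c (N + m) = i := by
  rw [lst, dif_neg (by omega), if_pos rfl]

theorem lst_c {m : ℕ} (s : ℕ → ℕ) (N : ℕ) (w : Fin m → ℕ) (i c : ℕ) :
    lst s N w i c (N + m + 1) = c := by
  rw [lst, dif_neg (by omega), if_neg (by omega), if_pos rfl]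

theorem lst_lt {m : ℕ} (s : ℕ → ℕ) (N : ℕ) (w : Fin m → ℕ) (i c : ℕ) {v : ℕ} (h : v < N) :
    lst s N w i c v = s v := by
  rw [lst, dif_neg (by omega), if_neg (by omega), if_neg (by omega)]

theorem lst_ge {m : ℕ} (s : ℕ → ℕ) (N : ℕ) (w : Fin m → ℕ) (i c : ℕ) {v : ℕ}
    (h : N + m + 2 ≤ v) : lst s N w i c v = s v := by
  rw [lst, dif_neg (by omega), if_neg (by omega), if_neg (by omega)]

/-- One pass of the loop. -/
def pass {m : ℕ} (N : ℕ) (d : Fin m → Cmd α) : Cmd α :=
  .seq (.dec (N + m + 1)) (.seq (seqAll m d) (.seq (clearAll m N)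
    (.seq (seqAll m fun j => copy (N + m + 2 + j.val) (N + j.val) (N + m + 2 + m))
      (.seq (clearAll m (N + m + 2)) (.inc (N + m))))))

theorem run_pass {m N B : ℕ} {x : List α} (d : Fin m → Cmd α) (s : ℕ → ℕ) (w w' : Fin m → ℕ)
    (i c : ℕ) (hN : ∀ v, N ≤ v → s v = 0) (hw' : ∀ j, w' j < B) (hi : i + 1 < B)
    (hd : ∀ (j : Fin m) (s' : ℕ → ℕ),
      (∀ v, (N + m + 2 ≤ v ∧ v < N + m + 2 + j.val) ∨ s' v = lst s N w i c v) →
      Run x B (d j) s' (update s' (N + m + 2 + j.val) (w' j))) :
    Run x B (pass N d) (lst s N w i (c + 1)) (lst s N w' (i + 1) c) := by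
  -- the states
  have e0 : update (lst s N w i (c + 1)) (N + m + 1) (lst s N w i (c + 1) (N + m + 1) - 1) =
      lst s N w i c := by
    rw [lst_c]
    funext v
    by_cases h : v = N + m + 1
    · subst h; rw [update_self, lst_c]; rfl
    · rw [update_of_ne h, lst, lst, if_neg (c := v = N + m + 1) h, if_neg (c := v = N + m + 1) h]
  have r0 : Run x B (.dec (N + m + 1)) (lst s N w i (c + 1)) (lst s N w i c) :=
    run_of_eq (.dec _ _) e0
  have r1 : Run x B (seqAll m d) (lst s N w i c) (blk (lst s N w i c) (N + m + 2) w') :=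
    run_seqAll d _ _ hd
  have r2 := run_clearAll (α := α) (x := x) (B := B) m N (blk (lst s N w i c) (N + m + 2) w')
  have r3 : Run x B (seqAll m fun j : Fin m => copy (N + m + 2 + j.val) (N + j.val)
      (N + m + 2 + m)) (blk (blk (lst s N w i c) (N + m + 2) w') N fun _ : Fin m => 0)
      (blk (blk (blk (lst s N w i c) (N + m + 2) w') N fun _ : Fin m => 0) N w') := by
    refine run_seqAll _ _ _ fun j s' hs' => ?_
    have h1 : s' (N + m + 2 + j.val) = w' j := by
      rcases hs' (N + m + 2 + j.val) with h | h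
      · omega
      · rw [h, blk_of_ge _ _ _ (by omega), blk_add]
    have h2 : s' (N + j.val) = 0 := by
      rcases hs' (N + j.val) with h | h
      · omega
      · rw [h, blk_add]
    have h3 : s' (N + m + 2 + m) = 0 := by
      rcases hs' (N + m + 2 + m) with h | h
      · omega
      · rw [h, blk_of_ge _ _ _ (by omega), blk_of_ge _ _ _ (by omega), lst_ge _ _ _ _ _ (by omega)]
        exact hN _ (by omega)
    have h := run_copy (x := x) (B := B) (u := N + m + 2 + j.val) (r := N + j.val)
      (w := N + m + 2 + m) (by omega) (by omega) (by omega) s'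
      (by rw [h1, h2, add_zero]; exact hw' j) (by rw [h1]; exact hw' j) h3
    rwa [h1, h2, zero_add] at h
  have r4 := run_clearAll (α := α) (x := x) (B := B) m (N + m + 2)
    (blk (blk (blk (lst s N w i c) (N + m + 2) w') N fun _ : Fin m => 0) N w')
  refine .seq r0 (.seq r1 (.seq r2 (.seq r3 (.seq r4 (run_of_eq (.inc (N + m) _ ?_) ?_)))))
  · have : (blk (blk (blk (blk (lst s N w i c) (N + m + 2) w') N fun _ : Fin m => 0) N w')
        (N + m + 2) fun _ : Fin m => 0) (N + m) = i := by
      rw [blk_of_lt _ _ _ (by omega), blk_of_ge _ _ _ (by omega), blk_of_ge _ _ _ (by omega),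
        blk_of_lt _ _ _ (by omega), lst_i]
    rw [this]; exact hi
  · funext v
    by_cases h1 : v = N + m
    · subst h1
      rw [update_self, lst_i, blk_of_lt _ _ _ (by omega), blk_of_ge _ _ _ (by omega),
        blk_of_ge _ _ _ (by omega), blk_of_lt _ _ _ (by omega), lst_i]
    · rw [update_of_ne h1]
      by_cases h2 : v < N
      · rw [lst_lt _ _ _ _ _ h2, blk_of_lt _ _ _ (by omega), blk_of_lt _ _ _ (by omega),
          blk_of_lt _ _ _ (by omega), blk_of_lt _ _ _ (by omega), lst_lt _ _ _ _ _ h2]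
      · by_cases h3 : v < N + m
        · rw [blk_of_lt _ _ _ (by omega), blk, dif_pos (by omega), lst, dif_pos (by omega)]
        · by_cases h4 : v = N + m + 1
          · subst h4
            rw [lst_c, blk_of_lt _ _ _ (by omega), blk_of_ge _ _ _ (by omega),
              blk_of_ge _ _ _ (by omega), blk_of_lt _ _ _ (by omega), lst_c]
          · rw [lst_ge _ _ _ _ _ (by omega)]
            by_cases h5 : v < N + m + 2 + m
            · rw [blk, dif_pos (by omega), hN v (by omega)]
            · rw [blk_of_ge _ _ _ (by omega), blk_of_ge _ _ _ (by omega),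
                blk_of_ge _ _ _ (by omega), blk_of_ge _ _ _ (by omega),
                lst_ge _ _ _ _ _ (by omega)]

theorem run_loop {m N B T : ℕ} {x : List α} (d : Fin m → Cmd α) (s : ℕ → ℕ)
    (W : ℕ → Fin m → ℕ) (hN : ∀ v, N ≤ v → s v = 0) (hW : ∀ i ≤ T, ∀ j, W i j < B) (hT : T < B)
    (hd : ∀ (i c : ℕ), i < T → ∀ (j : Fin m) (s' : ℕ → ℕ),
      (∀ v, (N + m + 2 ≤ v ∧ v < N + m + 2 + j.val) ∨ s' v = lst s N (W i) i c v) →
      Run x B (d j) s' (update s' (N + m + 2 + j.val) (W (i + 1) j))) (c i : ℕ)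
    (hc : i + c = T) :
    Run x B (.loop (N + m + 1) (pass N d)) (lst s N (W i) i c) (lst s N (W T) T 0) := by
  induction c generalizing i with
  | zero =>
    have : i = T := by omega
    subst this
    exact .loopDone (lst_c _ _ _ _ _)
  | succ c ih =>
    refine .loopStep (by rw [lst_c]; omega) (run_pass d s (W i) (W (i + 1)) i c hN
      (fun j => hW _ (by omega) j) (by omega) fun j s' hs' => hd i c (by omega) j s' hs') ?_
    exact ih (i + 1) (by omega)

/-- Bounded recursion (for several functions at the same time). -/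
theorem CompN.iter {k m : ℕ} {g : Fin m → List α → (Fin k → ℕ) → ℕ}
    {h : Fin m → List α → (Fin (k + 1 + m) → ℕ) → ℕ} {T : List α → (Fin k → ℕ) → ℕ}
    (hg : ∀ j, CompN K (g j)) (hh : ∀ j, CompN K (h j)) (hT : CompN K T)
    (hb : ∃ e : ℕ, ∀ (x : List α) (B : ℕ) (v : Fin k → ℕ), 2 ≤ B → K x < B →
      (∀ i, v i < B) → ∀ i ≤ T x v, ∀ j, iter g h x v i j < B ^ e) (j₀ : Fin m) :
    CompN K (fun x v => SP.iter g h x v (T x v) j₀) := by
  choose eg bg pg using hg
  choose eh bh ph using hh
  obtain ⟨eT, bT, pT⟩ := hT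
  obtain ⟨eb, hb⟩ := hb
  obtain ⟨E, hE⟩ : ∃ E, E = 1 + ∑ j, eg j + eT + eb := ⟨_, rfl⟩
  obtain ⟨F, hF⟩ : ∃ F, F = 1 + ∑ j, eh j := ⟨_, rfl⟩
  have hEj : ∀ j, eg j ≤ E := fun j => by
    have := Finset.single_le_sum (f := eg) (fun i _ => Nat.zero_le _) (Finset.mem_univ j)
    omega
  have hFj : ∀ j, eh j ≤ F := fun j => by
    have := Finset.single_le_sum (f := eh) (fun i _ => Nat.zero_le _) (Finset.mem_univ j)
    omega
  have hpw : ∀ {B i j : ℕ}, 2 ≤ B → i ≤ j → B ^ i ≤ B ^ j := fun hB h =>
    Nat.pow_le_pow_right (by omega) h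
  have hBE : ∀ B : ℕ, 2 ≤ B → B ≤ B ^ E := fun B hB => by
    calc B = B ^ 1 := (pow_one B).symm
      _ ≤ B ^ E := hpw hB (by omega)
  refine ⟨E * F, fun x B v hB hx hv => ?_, fun a r N ha hr har => ?_⟩
  · exact (hb x B v hB hx hv _ le_rfl j₀).trans_le
      (hpw hB ((show eb ≤ E by omega).trans (Nat.le_mul_of_pos_right E (by omega))))
  · choose cg hcg using fun j : Fin m => pg j a (N + j.val) (N + m + 2 + m)
      (fun i => by have := ha i; omega) (by omega) (fun i => by have := ha i; omega)
    obtain ⟨cT, hcT⟩ := pT a (N + m + 1) (N + m + 2 + m) (fun i => by have := ha i; omega)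
      (by omega) (fun i => by have := ha i; omega)
    choose ch hch using fun j : Fin m => ph j
      (app3 a (N + m) fun j : Fin m => N + j.val) (N + m + 2 + j.val) (N + m + 2 + m)
      (app3_all (p := fun z => z < N + m + 2 + m) (fun i => by have := ha i; omega) (by omega)
        (fun j => by omega)) (by omega)
      (app3_all (p := fun z => z ≠ N + m + 2 + j.val) (fun i => by have := ha i; omega)
        (by omega) (fun j => by omega))
    refine ⟨.seq (seqAll m cg) (.seq cT (.seq (.loop (N + m + 1) (pass N ch))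
      (.seq (copy (N + j₀.val) r (N + m + 2 + m)) (clearAll (m + 1) N)))),
      fun x B s hB hx hs hr0 hN => ?_⟩
    obtain ⟨v, hv⟩ : ∃ v : Fin k → ℕ, v = fun i => s (a i) := ⟨_, rfl⟩
    have hvB : ∀ i, v i < B := fun i => by rw [hv]; exact hs i
    obtain ⟨W, hW⟩ : ∃ W, W = SP.iter g h x v := ⟨_, rfl⟩
    have hWB : ∀ i ≤ T x v, ∀ j, W i j < B ^ E := fun i hi j => by
      rw [hW]
      exact (hb x B v hB hx hvB i hi j).trans_le (hpw hB (by omega))
    have hTB : T x v < B ^ E := (bT x B v hB hx hvB).trans_le (hpw hB (by omega))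
    have hEF : ∀ {e : ℕ}, e ≤ E → B ^ e ≤ B ^ (E * F) := fun he => hpw hB
      (he.trans (Nat.le_mul_of_pos_right E (by omega)))
    change Run x (B ^ (E * F)) _ s (update s r (SP.iter g h x (fun i => s (a i))
      (T x fun i => s (a i)) j₀))
    rw [← hv, ← hW]
    -- the first values
    have r1 : Run x (B ^ (E * F)) (seqAll m cg) s (blk s N (W 0)) := by
      refine run_seqAll cg s _ fun j s' hs' => ?_
      have e1 : ∀ v, v < N ∨ N + j.val ≤ v → s' v = s v := fun v hv => by
        rcases hs' v with h | h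
        · omega
        · exact h
      have e2 : (fun i => s' (a i)) = v := by
        rw [hv]
        funext i
        exact e1 _ (.inl (ha i))
      have h := hcg j x B s' hB hx (fun i => by rw [e1 _ (.inl (ha i))]; exact hs i)
        (by rw [e1 _ (.inr le_rfl)]; exact hN _ (by omega))
        (fun v hv => by rw [e1 _ (.inr (by omega))]; exact hN _ (by omega))
      rw [e2] at h
      rw [hW]
      exact Run.mono (hEF (hEj j)) h
    -- the number of rounds
    have r2 : Run x (B ^ (E * F)) cT (blk s N (W 0)) (lst s N (W 0) 0 (T x v)) := by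
      have e2 : (fun i => blk s N (W 0) (a i)) = v := by
        rw [hv]
        funext i
        exact blk_of_lt _ _ _ (ha i)
      have h := hcT x B (blk s N (W 0)) hB hx
        (fun i => by rw [blk_of_lt _ _ _ (ha i)]; exact hs i)
        (by rw [blk_of_ge _ _ _ (by omega)]; exact hN _ (by omega))
        (fun v hv => by rw [blk_of_ge _ _ _ (by omega)]; exact hN _ (by omega))
      rw [e2] at h
      refine run_of_eq (Run.mono (hEF (by omega)) h) ?_
      funext z
      by_cases h1 : z = N + m + 1
      · subst h1; rw [update_self, lst_c]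
      · rw [update_of_ne h1, lst, blk]
        by_cases h2 : N ≤ z ∧ z < N + m
        · rw [dif_pos h2, dif_pos h2]
        · rw [dif_neg h2, dif_neg h2, if_neg (c := z = N + m + 1) h1]
          by_cases h3 : z = N + m
          · rw [if_pos h3, hN z (by omega)]
          · rw [if_neg h3]
    -- the loop
    have r3 : Run x (B ^ (E * F)) (.loop (N + m + 1) (pass N ch)) (lst s N (W 0) 0 (T x v))
        (lst s N (W (T x v)) (T x v) 0) := by
      refine run_loop ch s W hN (fun i hi j => (hWB i hi j).trans_le (hEF le_rfl))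
        (hTB.trans_le (hEF le_rfl)) (fun i c hi j s' hs' => ?_) (T x v) 0 (by omega)
      have e1 : ∀ z, z < N + m + 2 ∨ N + m + 2 + j.val ≤ z → s' z = lst s N (W i) i c z :=
        fun z hz => by
          rcases hs' z with h | h
          · omega
          · exact h
      have e2 : (fun j' => s' (app3 a (N + m) (fun j : Fin m => N + j.val) j')) =
          app3 v i (W i) := by
        rw [app3_comp]
        congr 1
        · rw [hv]
          funext i'
          rw [e1 _ (.inl (by have := ha i'; omega)), lst_lt _ _ _ _ _ (ha i')]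
        · rw [e1 _ (.inl (by omega)), lst_i]
        · funext j'
          rw [e1 _ (.inl (by omega)), lst_w]
      have h := hch j x (B ^ E) s' (hB.trans (hBE B hB)) (hx.trans_le (hBE B hB))
        (fun j' => by
          have h1 := congrFun e2 j'
          rw [h1]
          exact app3_all (p := fun z => z < B ^ E) (fun i => (hvB i).trans_le (hBE B hB))
            (by omega) (fun j => hWB i (by omega) j) j')
        (by rw [e1 _ (.inr le_rfl), lst_ge _ _ _ _ _ (by omega)]; exact hN _ (by omega))
        (fun z hz => by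
          rw [e1 _ (.inr (by omega)), lst_ge _ _ _ _ _ (by omega)]; exact hN _ (by omega))
      rw [e2] at h
      have h2 := Run.mono (pow_mul_le (e₂ := E * F) hB (Nat.mul_le_mul_left E (hFj j))) h
      rw [hW] at h2 ⊢
      exact h2
    -- the result
    have r4 := run_copy (x := x) (B := B ^ (E * F)) (u := N + j₀.val) (r := r)
      (w := N + m + 2 + m) (by omega) (by omega) (by omega) (lst s N (W (T x v)) (T x v) 0)
      (by rw [lst_w, lst_lt _ _ _ _ _ hr, hr0, add_zero]
          exact (hWB _ le_rfl _).trans_le (hEF le_rfl))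
      (by rw [lst_w]; exact (hWB _ le_rfl _).trans_le (hEF le_rfl))
      (by rw [lst_ge _ _ _ _ _ (by omega)]; exact hN _ (by omega))
    rw [lst_w, lst_lt _ _ _ _ _ hr, hr0, zero_add] at r4
    refine .seq r1 (.seq r2 (.seq r3 (.seq r4 (run_of_eq (run_clearAll (m + 1) N _) ?_))))
    funext z
    by_cases h1 : z = r
    · subst h1
      rw [blk_of_lt _ _ _ hr, update_self, update_self]
    · rw [update_of_ne h1]
      by_cases h2 : z < N
      · rw [blk_of_lt _ _ _ h2, update_of_ne h1, lst_lt _ _ _ _ _ h2]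
      · by_cases h3 : z < N + (m + 1)
        · rw [blk, dif_pos (by omega), hN z (by omega)]
        · rw [blk_of_ge _ _ _ (by omega), update_of_ne h1]
          by_cases h4 : z = N + m + 1
          · subst h4; rw [lst_c, hN _ (by omega)]
          · rw [lst_ge _ _ _ _ _ (by omega)]

end SP

end Pool.Agent.MP_6216ea_lc
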