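import Pool.Agent.Lib.MP_6216ea_lc.SP.Arith

/-! Trees of calls: a recursion of bounded depth is a bounded iteration over the positions. -/

set_option autoImplicit false

namespace Pool.Agent.MP_6216ea_lc

namespace SP

open Function

section Abstract

variable {ν S : Type}

/-- The calls of a node of height `l`: its children `child l v k`, `k < r`, one after the other;
at the height `0` the action of the node. -/
def exec (child : ℕ → ν → ℕ → ν) (act : ν → S → S) (r : ℕ) : ℕ → ν → S → S
  | 0, v, s => act v s
  | l + 1, v, s => itr (fun k s => exec child act r l (child l v k) s) s r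

/-- The descent by the digits of `i`. -/
def desc (child : ℕ → ν → ℕ → ν) (r i : ℕ) : ℕ → ν → ν
  | 0, v => v
  | l + 1, v => desc child r i l (child l v (i / r ^ l % r))

theorem itr_congr {f g : ℕ → S → S} {s : S} {t : ℕ} (h : ∀ i < t, ∀ s, f i s = g i s) :
    itr f s t = itr g s t := by
  induction t with
  | zero => rfl
  | succ t ih => rw [itr, itr, ih fun i hi => h i (by omega), h t (by omega)]

theorem itr_append (f : ℕ → S → S) (s : S) (a b : ℕ) :
    itr f s (a + b) = itr (fun i => f (a + i)) (itr f s a) b := by
  induction b with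
  | zero => rfl
  | succ b ih => rw [← add_assoc, itr, itr, ih]

theorem itr_nested (g : ℕ → S → S) (s : S) (m r : ℕ) :
    itr (fun k s => itr (fun i s => g (m * k + i) s) s m) s r = itr g s (m * r) := by
  induction r with
  | zero => rfl
  | succ r ih => rw [itr, ih, mul_add, mul_one, itr_append]

theorem digit_congr {r i j l : ℕ} (h : i % r ^ (l + 1) = j % r ^ (l + 1)) :
    i / r ^ l % r = j / r ^ l % r := by
  have key : ∀ i, i % r ^ (l + 1) / r ^ l = i / r ^ l % r := fun i => by
    rw [pow_succ, Nat.mod_mul_right_div_self]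
  rw [← key, ← key, h]

theorem desc_congr (child : ℕ → ν → ℕ → ν) {r i j l : ℕ} (h : i % r ^ l = j % r ^ l) (v : ν) :
    desc child r i l v = desc child r j l v := by
  induction l generalizing v with
  | zero => rfl
  | succ l ih =>
    rw [desc, desc, digit_congr h]
    refine ih ?_ _
    have : r ^ l ∣ r ^ (l + 1) := pow_dvd_pow r (Nat.le_succ l)
    rw [← Nat.mod_mod_of_dvd i this, ← Nat.mod_mod_of_dvd j this, h]

/-- The recursion is an iteration over the positions. -/
theorem exec_eq (child : ℕ → ν → ℕ → ν) (act : ν → S → S) (r L : ℕ) (v : ν) (s : S) :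
    exec child act r L v s = itr (fun i s => act (desc child r i L v) s) s (r ^ L) := by
  induction L generalizing v s with
  | zero => rfl
  | succ l ih =>
    have h : ∀ k < r, ∀ s, exec child act r l (child l v k) s =
        itr (fun i s => act (desc child r (r ^ l * k + i) (l + 1) v) s) s (r ^ l) := by
      intro k hk s
      rw [ih]
      refine itr_congr fun i hi s => ?_
      have hr : 0 < r ^ l := by omega
      have h1 : (r ^ l * k + i) / r ^ l % r = k := by
        rw [add_comm, Nat.add_mul_div_left _ _ hr, Nat.div_eq_of_lt hi, zero_add,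
          Nat.mod_eq_of_lt hk]
      have h2 : desc child r (r ^ l * k + i) (l + 1) v = desc child r i l (child l v k) := by
        rw [desc, h1]
        refine desc_congr child ?_ _
        rw [Nat.mul_add_mod]
      rw [h2]
    rw [exec, itr_congr h, itr_nested (fun i s => act (desc child r i (l + 1) v) s), pow_succ]

/-- The descent from the top. -/
theorem desc_eq (child : ℕ → ν → ℕ → ν) (r i L : ℕ) (v : ν) :
    desc child r i L v = itr (fun j v => child (L - 1 - j) v (i / r ^ (L - 1 - j) % r)) v L := by
  have key : ∀ j ≤ L, desc child r i L v = desc child r i (L - j)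
      (itr (fun j v => child (L - 1 - j) v (i / r ^ (L - 1 - j) % r)) v j) := by
    intro j
    induction j with
    | zero => intro _; rfl
    | succ j ih =>
      intro hj
      rw [ih (by omega), itr]
      have : L - j = (L - (j + 1)) + 1 := by omega
      rw [this, desc]
      have h2 : L - (j + 1) = L - 1 - j := by omega
      rw [h2]
  rw [key L le_rfl, Nat.sub_self, desc]

end Abstract

variable {α : Type} {K : List α → ℕ} {σ ν S : Type} [Tup σ] [Tup ν] [Tup S]

/-- Trees of calls are computable. -/
protected theorem Comp.tree {child : List α → σ → ℕ → ν → ℕ → ν}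
    {act : List α → σ → ν → S → S} {r L F : List α → σ → ℕ} {root : List α → σ → ν}
    {start : List α → σ → S}
    (hc : Comp K fun x (p : σ × ℕ × ν × ℕ) => child x p.1 p.2.1 p.2.2.1 p.2.2.2)
    (ha : Comp K fun x (p : σ × ν × S) => act x p.1 p.2.1 p.2.2)
    (hr : Comp K r) (hL : Comp K L) (hroot : Comp K root) (hstart : Comp K start)
    (hP : Bd K fun x w => r x w ^ L x w) (hF : Bd K F)
    (I : List α → σ → ℕ → ν → Prop) (G : List α → σ → S → Prop)
    (hI : ∀ x w, I x w (L x w) (root x w))
    (hIc : ∀ x w l v k, l < L x w → k < r x w → I x w (l + 1) v → I x w l (child x w l v k))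
    (hIb : ∀ x w l v, I x w l v → Lt v (F x w + 1))
    (hG : ∀ x w, G x w (start x w))
    (hGa : ∀ x w v s, I x w 0 v → G x w s → G x w (act x w v s))
    (hGb : ∀ x w s, G x w s → Lt s (F x w + 1)) :
    Comp K fun x w => exec (child x w) (act x w) (r x w) (L x w) (root x w) (start x w) := by
  -- the descent
  have hInv : ∀ x w i, i < r x w ^ L x w → ∀ j ≤ L x w, I x w (L x w - j)
      (itr (fun j v => child x w (L x w - 1 - j) v (i / r x w ^ (L x w - 1 - j) % r x w))
        (root x w) j) := by
    intro x w i hi j
    induction j with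
    | zero => intro _; exact hI x w
    | succ j ih =>
      intro hj
      have hr0 : 0 < r x w := by
        rcases Nat.eq_zero_or_pos (r x w) with h | h
        · rw [h, zero_pow (by omega)] at hi; omega
        · exact h
      rw [itr]
      have e : L x w - (j + 1) = L x w - 1 - j := by omega
      rw [e]
      refine hIc x w _ _ _ (by omega) (Nat.mod_lt _ hr0) ?_
      have e2 : L x w - 1 - j + 1 = L x w - j := by omega
      rw [e2]
      exact ih (by omega)
  -- positions beyond the end give the root
  have hdesc : Comp K fun x (p : σ × ℕ) => itr (fun j v => if p.2 < r x p.1 ^ L x p.1 then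
      child x p.1 (L x p.1 - 1 - j) v (p.2 / r x p.1 ^ (L x p.1 - 1 - j) % r x p.1) else v)
      (root x p.1) (L x p.1) := by
    have hr1 : Comp K fun x (p : (σ × ℕ) × ℕ × ν) => r x p.1.1 := hr.comp Comp.id.fst.fst
    have hL1 : Comp K fun x (p : (σ × ℕ) × ℕ × ν) => L x p.1.1 := hL.comp Comp.id.fst.fst
    have hl : Comp K fun x (p : (σ × ℕ) × ℕ × ν) => L x p.1.1 - 1 - p.2.1 :=
      Comp.sub (Comp.pred hL1) Comp.id.snd.fst
    refine Comp.itr_le (h := fun x (p : σ × ℕ) j v => if p.2 < r x p.1 ^ L x p.1 then
      child x p.1 (L x p.1 - 1 - j) v (p.2 / r x p.1 ^ (L x p.1 - 1 - j) % r x p.1) else v)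
      (g := fun x (p : σ × ℕ) => root x p.1) (T := fun x (p : σ × ℕ) => L x p.1)
      (F := fun x (p : σ × ℕ) => F x p.1)
      (Comp.ite (CompP.lt_pow Comp.id.fst.snd hr1 hL1) (hc.comp (Comp.pair Comp.id.fst.fst
        (Comp.pair hl (Comp.pair Comp.id.snd.snd (Comp.digit Comp.id.fst.snd hr1 hl)))))
        Comp.id.snd.snd)
      (hroot.comp Comp.id.fst) (hL.comp Comp.id.fst) (hF.comp Comp.id.fst) fun x p j hj => ?_
    by_cases h : p.2 < r x p.1 ^ L x p.1
    · simp only [if_pos h]
      exact hIb _ _ _ _ (hInv x p.1 p.2 h j hj)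
    · simp only [if_neg h]
      have : itr (fun _ v => v) (root x p.1) j = root x p.1 := by
        clear hj
        induction j with
        | zero => rfl
        | succ j ih => rw [itr, ih]
      rw [this]
      exact hIb _ _ _ _ (hI x p.1)
  have hPC : Comp K fun x w => r x w ^ L x w := Comp.pow hr hL hP
  have hGi : ∀ x w, ∀ i ≤ r x w ^ L x w, G x w (itr (fun i s => act x w
      (desc (child x w) (r x w) i (L x w) (root x w)) s) (start x w) i) := by
    intro x w
    refine itr_inv (hG x w) fun i hi s hs => hGa x w _ _ ?_ hs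
    rw [desc_eq]
    have := hInv x w i hi (L x w) le_rfl
    rwa [Nat.sub_self] at this
  have hmain : ∀ x w, ∀ i ≤ r x w ^ L x w, itr (fun i s => act x w
      (itr (fun j v => if i < r x w ^ L x w then
        child x w (L x w - 1 - j) v (i / r x w ^ (L x w - 1 - j) % r x w) else v)
        (root x w) (L x w)) s) (start x w) i = itr (fun i s => act x w
      (desc (child x w) (r x w) i (L x w) (root x w)) s) (start x w) i := by
    intro x w i hi
    refine itr_congr fun j hj s => ?_
    simp only [if_pos (show j < r x w ^ L x w by omega)]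
    rw [desc_eq]
  refine (Comp.itr_le (h := fun x w i s => act x w
      (itr (fun j v => if i < r x w ^ L x w then
        child x w (L x w - 1 - j) v (i / r x w ^ (L x w - 1 - j) % r x w) else v)
        (root x w) (L x w)) s) (F := F)
    (ha.comp (Comp.pair Comp.id.fst (Comp.pair (hdesc.comp (Comp.pair Comp.id.fst
      Comp.id.snd.fst)) Comp.id.snd.snd))) hstart hPC hF fun x w i hi => ?_).of_eq fun x w => ?_
  · rw [hmain x w i hi]
    exact hGb x w _ (hGi x w i hi)
  · rw [hmain x w _ le_rfl, exec_eq]

end SP

end Pool.Agent.MP_6216ea_lc
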